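import Pool.Agent.Work.MP_1d48d5_pr.D4

open MeasureTheory ProbabilityTheory Filter Topology Pool.Agent.Work.MP_1d48d5_pr
open scoped BoundedContinuousFunction

namespace Pool.Agent.Results.MP_1d48d5_pr.MeanCentred

/-- For all `C > 0`, `B` above the critical value and `0 < δ < 1`, the block row sum of a uniform
contingency table, centred at its mean and divided by `√n`, converges in distribution to the
centred normal law with variance `B_c C + (B_c C) ^ 2`. -/
theorem result (B C δ : ℝ) (hC : 0 < C) (hB : Bc C < B) (h0 : 0 < δ) (h1 : δ < 1) (f : ℝ →ᵇ ℝ) :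
    Tendsto (fun n : ℕ => ∫ X, f (((blockSum (dim δ n) n X : ℝ) -
          ∫ Y, (blockSum (dim δ n) n Y : ℝ)
            ∂(uniformOn (tables (margin B C δ n) (margin B C δ n)))) / √n)
        ∂(uniformOn (tables (margin B C δ n) (margin B C δ n))))
      atTop (𝓝 (∫ x, f x ∂(gaussianReal 0 (Bc C * C + (Bc C * C) ^ 2).toNNReal))) :=
  CLT.mean_clt hC hB h0 h1 f

end Pool.Agent.Results.MP_1d48d5_pr.MeanCentred
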